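import Pool.Agent.Lib.MP_c5e1a2_co.IdealBound

namespace Pool.Agent.Results.MP_c5e1a2_co.GroebnerDegree

open Pool.Agent.Lib.MP_c5e1a2_co

/-- For every `T ≥ 4`, every field `k`, all `n` and all `S ≥ 2 (T - 1) (n + 2)`: for every term
order, every Gröbner basis of the toric ideal `I_A`, `A = A_{S,T}`, contains an element of
degree at least `(T - 1) (T - 2) ^ n`. -/
theorem result (T n S : ℕ) (hT : 4 ≤ T) (hS : 2 * (T - 1) * (n + 2) ≤ S)
    (k : Type*) [Field k] (m : MonomialOrder (Word S T))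
    (G : Set (MvPolynomial (Word S T) k)) (hG : IsGroebnerBasis m (toricIdeal k S T) G) :
    ∃ g ∈ G, (T - 1) * (T - 2) ^ n ≤ g.totalDegree := by
  obtain ⟨ℓ, rfl⟩ : ∃ ℓ, T = ℓ + 2 + 1 := ⟨T - 3, by omega⟩
  obtain ⟨x, y, α, τ, hx, hy, hxy, hc, hne⟩ := exists_fibre (chain ℓ n S hS)
  have hc' : IsCert ((design S (ℓ + 2 + 1)).mulVec x) α τ
      (((ℓ + 2 + 1 - 1) * (ℓ + 2 + 1 - 2) ^ n : ℕ) : ℤ) := by
    have : (((ℓ + 2 + 1 - 1) * (ℓ + 2 + 1 - 2) ^ n : ℕ) : ℤ) =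
        ((ℓ : ℤ) + 2) * ((ℓ : ℤ) + 1) ^ n := by
      rw [show ℓ + 2 + 1 - 1 = ℓ + 2 by omega, show ℓ + 2 + 1 - 2 = ℓ + 1 by omega]
      push_cast
      ring
    rw [this]
    exact hc
  exact ideal_of_cert k (by omega) hx hy hxy hc' hne (span_of_groebner m hG)

end Pool.Agent.Results.MP_c5e1a2_co.GroebnerDegree
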