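import Pool.Agent.Lib.MP_c5e1a2_co.Chain

namespace Pool.Agent.Results.MP_c5e1a2_co.MarkovDegree

open Pool.Agent.Lib.MP_c5e1a2_co

/-- For every `T ≥ 4` the Markov degree of the toric homogeneous Markov chain model without
self-loops grows exponentially with the number `S` of states: for all `n`, if
`S ≥ 2 (T - 1) (n + 2)` then every Markov basis of `A_{S,T}` (more generally every set of moves,
finite or not, which connects all fibres) contains a move of degree at least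
`(T - 1) (T - 2) ^ n`. -/
theorem result (T n S : ℕ) (hT : 4 ≤ T) (hS : 2 * (T - 1) * (n + 2) ≤ S)
    (Z : Set (Word S T → ℤ)) (hZ : HasMarkovProperty S T Z) :
    ∃ z ∈ Z, (((T - 1) * (T - 2) ^ n : ℕ) : ℤ) ≤ moveDegree z := by
  obtain ⟨ℓ, rfl⟩ : ∃ ℓ, T = ℓ + 2 + 1 := ⟨T - 3, by omega⟩
  obtain ⟨x, y, α, τ, hx, hy, hxy, hc, hne⟩ := exists_fibre (chain ℓ n S hS)
  obtain ⟨z, hz, hdeg⟩ := markov_of_cert (by omega) hx hy hxy hc hne hZ
  refine ⟨z, hz, le_trans (le_of_eq ?_) hdeg⟩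
  rw [show ℓ + 2 + 1 - 1 = ℓ + 2 by omega, show ℓ + 2 + 1 - 2 = ℓ + 1 by omega]
  push_cast
  ring

end Pool.Agent.Results.MP_c5e1a2_co.MarkovDegree
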